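import Pool.Agent.K3h44.SQ.Stm
import Pool.Agent.K3h44.HP.Roth
import Pool.Agent.R405.Rep

/-! SQ project: a lower bound for the values of a binary cubic form from Roth's theorem. -/

set_option autoImplicit false

namespace Pool.Agent.K3h64.SQ

open Polynomial NumberField Height Module Pool.Agent.K3h44.SQ

theorem three_reals {d e f : ℝ} (hd : 0 ≤ d) (h1 : d ≤ e) (h2 : d ≤ f) (h3 : 1 ≤ d + e)
    (h4 : 1 ≤ d + f) : d ≤ 4 * (d * (e * f)) := by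
  have he : 1 / 2 ≤ e := by linarith
  have hf : 1 / 2 ≤ f := by linarith
  have hef : 1 / 4 ≤ e * f := by nlinarith
  nlinarith

theorem cube_near (w : ℂ) : ∃ ζ : ℂ, ζ ^ 3 = 1 ∧ ‖w - ζ‖ ≤ 4 * ‖1 - w ^ 3‖ := by
  obtain ⟨ω, hω⟩ : ∃ ω : ℂ, ω ^ 2 + ω + 1 = 0 := by
    have h1 := Complex.isPrimitiveRoot_exp 3 (by norm_num)
    have h2 := h1.geom_sum_eq_zero (by norm_num)
    simp only [Finset.sum_range_succ, Finset.sum_range_zero, pow_zero, pow_one] at h2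
    exact ⟨_, by linear_combination h2⟩
  have hω3 : ω ^ 3 = 1 := by linear_combination (ω - 1) * hω
  have hn : ‖ω‖ = 1 := by
    have h1 : ‖ω‖ ^ 3 = 1 := by rw [← norm_pow, hω3, norm_one]
    exact (pow_eq_one_iff_of_nonneg (norm_nonneg _) (by norm_num)).1 h1
  have h11 : ‖1 - ω‖ * ‖1 - ω‖ = 3 := by
    rw [← norm_mul, show (1 - ω) * (1 - ω) = -(3 * ω) by linear_combination hω, norm_neg,
      norm_mul, hn]
    norm_num
  have h1 : 1 ≤ ‖1 - ω‖ := by nlinarith [norm_nonneg (1 - ω)]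
  have h2 : 1 ≤ ‖1 - ω ^ 2‖ := by
    rw [show 1 - ω ^ 2 = (1 - ω) * -(ω ^ 2) by linear_combination (1 - ω) * hω, norm_mul,
      norm_neg, norm_pow, hn, one_pow, mul_one]
    exact h1
  have h3 : 1 ≤ ‖ω - ω ^ 2‖ := by
    rw [show ω - ω ^ 2 = ω * (1 - ω) by ring, norm_mul, hn, one_mul]
    exact h1
  have hp : ‖1 - w ^ 3‖ = ‖w - 1‖ * (‖w - ω‖ * ‖w - ω ^ 2‖) := by
    rw [← norm_mul, ← norm_mul, ← norm_neg]
    congr 1
    linear_combination (w - 1) * (w - ω + 1) * hω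
  have s1 : 1 ≤ ‖w - 1‖ + ‖w - ω‖ := by
    have := norm_sub_le (w - ω) (w - 1)
    rw [show w - ω - (w - 1) = 1 - ω by ring] at this
    linarith
  have s2 : 1 ≤ ‖w - 1‖ + ‖w - ω ^ 2‖ := by
    have := norm_sub_le (w - ω ^ 2) (w - 1)
    rw [show w - ω ^ 2 - (w - 1) = 1 - ω ^ 2 by ring] at this
    linarith
  have s3 : 1 ≤ ‖w - ω‖ + ‖w - ω ^ 2‖ := by
    have := norm_sub_le (w - ω ^ 2) (w - ω)
    rw [show w - ω ^ 2 - (w - ω) = ω - ω ^ 2 by ring] at this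
    linarith
  have n1 := norm_nonneg (w - 1)
  have n2 := norm_nonneg (w - ω)
  have n3 := norm_nonneg (w - ω ^ 2)
  rw [hp]
  rcases le_total ‖w - 1‖ ‖w - ω‖ with h12 | h12
  · rcases le_total ‖w - 1‖ ‖w - ω ^ 2‖ with h13 | h13
    · exact ⟨1, one_pow 3, three_reals n1 h12 h13 s1 s2⟩
    · refine ⟨ω ^ 2, by rw [← pow_mul, mul_comm, pow_mul, hω3, one_pow], ?_⟩
      have := three_reals n3 h13 (h13.trans h12) (by linarith) (by linarith)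
      linarith
  · rcases le_total ‖w - ω‖ ‖w - ω ^ 2‖ with h23 | h23
    · refine ⟨ω, hω3, ?_⟩
      have := three_reals n2 h12 h23 (by linarith) s3
      linarith
    · refine ⟨ω ^ 2, by rw [← pow_mul, mul_comm, pow_mul, hω3, one_pow], ?_⟩
      have := three_reals n3 (h23.trans h12) h23 (by linarith) (by linarith)
      linarith

theorem root_near (a : ℂ) (ha : a ≠ 0) : ∃ C₂ : ℝ, 0 ≤ C₂ ∧ ∀ z : ℂ, ∃ τ : ℂ,
    a * τ ^ 3 = 1 ∧ ‖z - τ‖ ≤ C₂ * ‖1 - a * z ^ 3‖ := by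
  obtain ⟨τ₀, hτ₀⟩ := IsAlgClosed.exists_pow_nat_eq a⁻¹ (n := 3) (by norm_num)
  have hτ0 : τ₀ ≠ 0 := by
    rintro rfl
    apply inv_ne_zero ha
    rw [← hτ₀]
    simp
  refine ⟨4 * ‖τ₀‖, by positivity, fun z => ?_⟩
  obtain ⟨ζ, hζ, h⟩ := cube_near (z / τ₀)
  refine ⟨τ₀ * ζ, ?_, ?_⟩
  · rw [mul_pow, hτ₀, hζ, mul_one, mul_inv_cancel₀ ha]
  · have e1 : z - τ₀ * ζ = τ₀ * (z / τ₀ - ζ) := by field_simp
    have e2 : 1 - (z / τ₀) ^ 3 = 1 - a * z ^ 3 := by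
      rw [div_pow, hτ₀, div_inv_eq_mul]
      ring
    rw [e1, norm_mul, ← e2]
    have := mul_le_mul_of_nonneg_left h (norm_nonneg τ₀)
    linarith

theorem height_OK {K : Type} [Field K] [NumberField K] (a b : 𝓞 K) (h : b ≠ 0) (X : ℝ)
    (hX0 : 0 < X) (hX : ∀ φ : K →+* ℂ, ‖φ (a : K)‖ ≤ X ∧ ‖φ (b : K)‖ ≤ X) :
    logHeight ![(a : K), (b : K)] ≤ finrank ℚ K * Real.log X := by
  classical
  set u : Fin 2 → 𝓞 K := ![a, b] with hu
  have hu0 : u ≠ 0 := by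
    intro h0
    have := congrFun h0 1
    rw [hu] at this
    simp at this
    exact h this
  have huK : (fun j => (u j : K)) = ![(a : K), (b : K)] := by
    funext j
    fin_cases j <;> simp [hu]
  have h1 := Pool.Agent.R405.mulHeight_int u hu0
  rw [huK] at h1
  have hN : (1 : ℝ) ≤ Ideal.absNorm (Ideal.span (Set.range u)) := by
    have hne : Ideal.span (Set.range u) ≠ ⊥ := by
      intro h0
      rw [Ideal.span_eq_bot] at h0
      apply hu0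
      funext j
      exact h0 _ (Set.mem_range_self j)
    have : Ideal.absNorm (Ideal.span (Set.range u)) ≠ 0 := by
      rwa [Ne, Ideal.absNorm_eq_zero_iff]
    exact_mod_cast Nat.one_le_iff_ne_zero.2 this
  have hsup : ∀ v : InfinitePlace K, (⨆ i, v (u i : K)) ≤ X := by
    intro v
    refine ciSup_le fun i => ?_
    rw [← InfinitePlace.norm_embedding_eq]
    fin_cases i
    · exact (hX v.embedding).1
    · exact (hX v.embedding).2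
  have hprod : ∏ v : InfinitePlace K, (⨆ i, v (u i : K)) ^ v.mult ≤ X ^ finrank ℚ K := by
    rw [← InfinitePlace.sum_mult_eq, ← Finset.prod_pow_eq_pow_sum]
    refine Finset.prod_le_prod (fun v _ => ?_) fun v _ => ?_
    · exact pow_nonneg (Real.iSup_nonneg fun i => apply_nonneg v _) _
    · exact pow_le_pow_left₀ (Real.iSup_nonneg fun i => apply_nonneg v _) (hsup v) _
  have hmul : mulHeight ![(a : K), (b : K)] ≤ X ^ finrank ℚ K := by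
    have h0 : 0 < mulHeight ![(a : K), (b : K)] := by positivity
    nlinarith
  rw [logHeight_eq_log_mulHeight, ← Real.log_pow]
  exact Real.log_le_log (by positivity) hmul

theorem logHeight_scale {K : Type} [Field K] [NumberField K] {a b c : K} (hc : c ≠ 0) :
    logHeight ![a * c, b * c] = logHeight ![a, b] := by
  rw [← logHeight_smul_eq_logHeight (x := ![a, b]) hc]
  congr 1
  funext j
  fin_cases j
  · simp [mul_comm]
  · simp [mul_comm]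

theorem t_RTH : S_RTH := by
  classical
  intro K _ _ η₁ η₂ hη₁ hη₂ ε c hε hc
  have hc0 : 0 < c := by linarith
  -- the polynomial
  obtain ⟨B, hB, hBτ⟩ : ∃ B : ℤ[X], B ≠ 0 ∧ ∀ (φ : K →+* ℂ) (τ : ℂ),
      φ (η₂ / η₁) * τ ^ 3 = 1 → aeval τ B = 0 := by
    have halg : IsAlgebraic ℤ (η₁ / η₂) :=
      (IsFractionRing.isAlgebraic_iff ℤ ℚ K).2 (Algebra.IsAlgebraic.isAlgebraic _)
    obtain ⟨f, hf, hf0⟩ := halg
    refine ⟨expand ℤ 3 f, ?_, fun φ τ hτ => ?_⟩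
    · intro h0
      exact hf ((expand_eq_zero (by norm_num)).1 h0)
    · rw [expand_aeval]
      have h1 : τ ^ 3 = φ (η₁ / η₂) := by
        have h2 : φ (η₁ / η₂) * φ (η₂ / η₁) = 1 := by
          rw [← map_mul, div_mul_div_cancel₀ hη₂, div_self hη₁, map_one]
        linear_combination φ (η₁ / η₂) * hτ - τ ^ 3 * h2
      rw [h1]
      have h3 : aeval (φ (η₁ / η₂)) f = φ (aeval (η₁ / η₂) f) := by
        rw [aeval_def, aeval_def, hom_eval₂]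
        congr 1
        exact RingHom.ext_int _ _
      rw [h3, hf0, map_zero]
  -- constants at the places
  have hroot : ∀ φ : K →+* ℂ, ∃ C₂ : ℝ, 0 ≤ C₂ ∧ ∀ z : ℂ, ∃ τ : ℂ,
      φ (η₂ / η₁) * τ ^ 3 = 1 ∧ ‖z - τ‖ ≤ C₂ * ‖1 - φ (η₂ / η₁) * z ^ 3‖ := fun φ =>
    root_near _ (by
      rw [Ne, map_eq_zero]
      exact div_ne_zero hη₂ hη₁)
  choose C₂ hC₂ hnear using hroot
  have hηpos : ∀ φ : K →+* ℂ, 0 < ‖φ η₁‖ := fun φ => norm_pos_iff.2 (by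
    rw [Ne, map_eq_zero]
    exact hη₁)
  obtain ⟨C₀, hC₀⟩ : ∃ C₀ : ℝ, C₀ = 1 + ∑ φ : K →+* ℂ, C₂ φ * (c ^ 3 / ‖φ η₁‖) := ⟨_, rfl⟩
  have hterm : ∀ φ : K →+* ℂ, 0 ≤ C₂ φ * (c ^ 3 / ‖φ η₁‖) := fun φ => by
    have := hηpos φ
    have := hC₂ φ
    positivity
  have hC₀1 : 1 ≤ C₀ := by
    rw [hC₀]
    linarith [Finset.sum_nonneg fun φ (_ : φ ∈ Finset.univ) => hterm φ]
  have hC₀φ : ∀ φ : K →+* ℂ, C₂ φ * (c ^ 3 / ‖φ η₁‖) ≤ C₀ := fun φ => by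
    rw [hC₀]
    have := Finset.single_le_sum (f := fun φ : K →+* ℂ => C₂ φ * (c ^ 3 / ‖φ η₁‖))
      (fun φ _ => hterm φ) (Finset.mem_univ φ)
    linarith
  obtain ⟨ε', hε', hε'1⟩ : ∃ ε' : ℝ, 0 < ε' ∧ 1 - ε' = (1 + ε)⁻¹ := by
    refine ⟨ε / (1 + ε), by positivity, ?_⟩
    field_simp
    ring
  obtain ⟨T, C₁, hT, hroth⟩ := Pool.Agent.K3h44.HP.roth_arch K B hB 1 le_rfl C₀ hC₀1 ε' hε'
  -- the exceptional points
  obtain ⟨E, hE⟩ : ∃ E : Finset K, ∀ t : K, t ∈ E ↔ (t ∈ T ∨ aeval t B = 0) := by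
    have hfin : (T ∪ {t : K | aeval t B = 0}).Finite := by
      refine hT.union ?_
      have hBK : B.map (algebraMap ℤ K) ≠ 0 :=
        (Polynomial.map_ne_zero_iff (algebraMap ℤ K).injective_int).2 hB
      refine ((B.map (algebraMap ℤ K)).roots.toFinset.finite_toSet).subset fun t ht => ?_
      simp only [Finset.mem_coe, Multiset.mem_toFinset]
      rw [mem_roots hBK, IsRoot.def, eval_map]
      exact ht
    exact ⟨hfin.toFinset, fun t => by rw [Set.Finite.mem_toFinset]; rfl⟩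
  obtain ⟨φ₀⟩ : Nonempty (K →+* ℂ) := inferInstance
  obtain ⟨CE, hCE⟩ : ∃ CE : ℝ, CE = ∑ t ∈ E, c ^ 3 / (‖φ₀ η₁‖ * ‖φ₀ (1 - η₂ / η₁ * t ^ 3)‖) :=
    ⟨_, rfl⟩
  have hCE0 : 0 ≤ CE := by
    rw [hCE]
    exact Finset.sum_nonneg fun _ _ => by positivity
  obtain ⟨C₃, hC₃⟩ : ∃ C₃ : ℝ, C₃ = Real.exp ((1 + ε) * ((2 + ε') * Real.log c + |C₁|)) :=
    ⟨_, rfl⟩
  have hC₃0 : 0 < C₃ := by
    rw [hC₃]
    exact Real.exp_pos _
  refine ⟨1 + CE + C₃, fun β₁ β₂ R g hR hg hG hφ => ?_⟩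
  have hR0 : 0 < R := by linarith
  have hg0 : 0 < g := by linarith
  have hgε : g ≤ g ^ (1 + ε) := by
    conv_lhs => rw [← Real.rpow_one g]
    exact Real.rpow_le_rpow_of_exponent_le hg (by linarith)
  have hgε0 : 0 < g ^ (1 + ε) := by positivity
  have hRR : R ≤ R ^ 3 := le_self_pow₀ hR (by norm_num)
  have hβ : ∀ φ : K →+* ℂ, 0 < ‖φ (β₁ : K)‖ := fun φ => by
    have := (hφ φ).2.2.1
    by_contra hcon
    push Not at hcon
    nlinarith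
  have hβ₁ : (β₁ : K) ≠ 0 := by
    intro h0
    have := hβ φ₀
    rw [h0, map_zero, norm_zero] at this
    exact lt_irrefl _ this
  obtain ⟨t, ht⟩ : ∃ t : K, t = β₂ / β₁ := ⟨_, rfl⟩
  have hGt : η₁ * (β₁ : K) ^ 3 - η₂ * (β₂ : K) ^ 3 =
      η₁ * (β₁ : K) ^ 3 * (1 - η₂ / η₁ * t ^ 3) := by
    rw [ht]
    field_simp
  have hu : ∀ φ : K →+* ℂ, R ^ 3 * (‖φ η₁‖ * ‖φ (1 - η₂ / η₁ * t ^ 3)‖) ≤ c ^ 3 * g := by
    intro φ
    have h1 := (hφ φ).2.2.2.2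
    rw [hGt, map_mul, map_mul, map_pow, norm_mul, norm_mul, norm_pow] at h1
    have h2 : R ^ 3 ≤ c ^ 3 * ‖φ (β₁ : K)‖ ^ 3 := by
      rw [← mul_pow]
      exact pow_le_pow_left₀ hR0.le (hφ φ).2.2.1 3
    have h3 : 0 ≤ ‖φ η₁‖ * ‖φ (1 - η₂ / η₁ * t ^ 3)‖ := by positivity
    calc R ^ 3 * (‖φ η₁‖ * ‖φ (1 - η₂ / η₁ * t ^ 3)‖)
        ≤ c ^ 3 * ‖φ (β₁ : K)‖ ^ 3 * (‖φ η₁‖ * ‖φ (1 - η₂ / η₁ * t ^ 3)‖) :=
          mul_le_mul_of_nonneg_right h2 h3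
      _ = c ^ 3 * (‖φ η₁‖ * ‖φ (β₁ : K)‖ ^ 3 * ‖φ (1 - η₂ / η₁ * t ^ 3)‖) := by ring
      _ ≤ c ^ 3 * g := mul_le_mul_of_nonneg_left h1 (by positivity)
  have hune : (1 - η₂ / η₁ * t ^ 3) ≠ 0 := by
    intro h0
    apply hG
    rw [hGt, h0, mul_zero]
  by_cases htE : t ∈ E
  · -- exceptional
    have h1 := hu φ₀
    have h2 : 0 < ‖φ₀ η₁‖ * ‖φ₀ (1 - η₂ / η₁ * t ^ 3)‖ := by
      refine mul_pos (hηpos φ₀) (norm_pos_iff.2 ?_)
      rw [Ne, map_eq_zero]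
      exact hune
    have h3 : R ^ 3 ≤ c ^ 3 / (‖φ₀ η₁‖ * ‖φ₀ (1 - η₂ / η₁ * t ^ 3)‖) * g := by
      rw [div_mul_eq_mul_div, le_div_iff₀ h2]
      exact h1
    have h4 : c ^ 3 / (‖φ₀ η₁‖ * ‖φ₀ (1 - η₂ / η₁ * t ^ 3)‖) ≤ CE := by
      rw [hCE]
      exact Finset.single_le_sum (f := fun t => c ^ 3 / (‖φ₀ η₁‖ * ‖φ₀ (1 - η₂ / η₁ * t ^ 3)‖))
        (fun _ _ => by positivity) htE
    calc R ≤ R ^ 3 := hRR
      _ ≤ c ^ 3 / (‖φ₀ η₁‖ * ‖φ₀ (1 - η₂ / η₁ * t ^ 3)‖) * g := h3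
      _ ≤ CE * g := mul_le_mul_of_nonneg_right h4 hg0.le
      _ ≤ CE * g ^ (1 + ε) := mul_le_mul_of_nonneg_left hgε hCE0
      _ ≤ (1 + CE + C₃) * g ^ (1 + ε) := mul_le_mul_of_nonneg_right (by linarith) hgε0.le
  rw [hE, not_or] at htE
  rcases lt_or_ge (R ^ 3) g with hM | hM
  · calc R ≤ R ^ 3 := hRR
      _ ≤ g := hM.le
      _ ≤ g ^ (1 + ε) := hgε
      _ = 1 * g ^ (1 + ε) := (one_mul _).symm
      _ ≤ (1 + CE + C₃) * g ^ (1 + ε) := mul_le_mul_of_nonneg_right (by linarith) hgε0.le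
  · have hM1 : 1 ≤ R ^ 3 / g := (one_le_div hg0).2 hM
    have h1 := hroth t htE.1 htE.2 (R ^ 3 / g) hM1 (by
      intro φ
      right
      obtain ⟨τ, hτ, hτ'⟩ := hnear φ (φ t)
      refine ⟨τ, hBτ φ τ hτ, ?_⟩
      rw [pow_one]
      have h2 := hu φ
      have e1 : φ (1 - η₂ / η₁ * t ^ 3) = 1 - φ (η₂ / η₁) * φ t ^ 3 := by
        rw [map_sub, map_one, map_mul, map_pow]
      rw [← e1] at hτ'
      have h3 : R ^ 3 / g * ‖φ (1 - η₂ / η₁ * t ^ 3)‖ ≤ c ^ 3 / ‖φ η₁‖ := by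
        rw [div_mul_eq_mul_div, div_le_div_iff₀ hg0 (hηpos φ)]
        linarith
      calc R ^ 3 / g * ‖φ t - τ‖ ≤ R ^ 3 / g * (C₂ φ * ‖φ (1 - η₂ / η₁ * t ^ 3)‖) :=
            mul_le_mul_of_nonneg_left hτ' (by positivity)
        _ = C₂ φ * (R ^ 3 / g * ‖φ (1 - η₂ / η₁ * t ^ 3)‖) := by ring
        _ ≤ C₂ φ * (c ^ 3 / ‖φ η₁‖) := mul_le_mul_of_nonneg_left h3 (hC₂ φ)
        _ ≤ C₀ := hC₀φ φ)
    have h2 : logHeight ![t, 1] ≤ finrank ℚ K * Real.log (c * R) := by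
      have h3 := logHeight_scale (a := t) (b := 1) hβ₁
      rw [one_mul, show t * (β₁ : K) = β₂ by rw [ht]; field_simp] at h3
      rw [← h3]
      exact height_OK β₂ β₁ (fun h0 => hβ₁ (by rw [h0]; rfl)) _ (by positivity)
        fun φ => ⟨(hφ φ).2.1, (hφ φ).1⟩
    have hn : (1 : ℝ) ≤ finrank ℚ K := by
      exact_mod_cast Nat.one_le_iff_ne_zero.2 finrank_pos.ne'
    rw [Real.log_mul hc0.ne' hR0.ne'] at h2
    rw [Real.log_div (by positivity) hg0.ne', Real.log_pow] at h1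
    push_cast at h1
    have h4 := mul_le_mul_of_nonneg_left h2 (by linarith : (0 : ℝ) ≤ 2 + ε')
    have h5 : C₁ ≤ finrank ℚ K * |C₁| := by
      have := le_abs_self C₁
      nlinarith [abs_nonneg C₁]
    have h6 : (finrank ℚ K : ℝ) * ((1 - ε') * Real.log R) ≤
        finrank ℚ K * (Real.log g + (2 + ε') * Real.log c + |C₁|) := by
      nlinarith
    have h7 : (1 - ε') * Real.log R ≤ Real.log g + (2 + ε') * Real.log c + |C₁| :=
      le_of_mul_le_mul_left h6 (by linarith)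
    rw [hε'1] at h7
    have h8 : Real.log R ≤ (1 + ε) * (Real.log g + (2 + ε') * Real.log c + |C₁|) := by
      rw [inv_mul_le_iff₀ (by linarith)] at h7
      exact h7
    have h9 : R ≤ C₃ * g ^ (1 + ε) := by
      rw [hC₃, Real.rpow_def_of_pos hg0, ← Real.exp_add, ← Real.log_le_iff_le_exp hR0]
      linarith
    calc R ≤ C₃ * g ^ (1 + ε) := h9
      _ ≤ (1 + CE + C₃) * g ^ (1 + ε) := mul_le_mul_of_nonneg_right (by linarith) hgε0.le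

end Pool.Agent.K3h64.SQ
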